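import Pool.Agent.Helper55.CF.Goals

/-!
Packet SVD+HM+SORT (MP_b612a6_ag).
-/

open Matrix Filter Topology
open scoped ComplexConjugate ComplexOrder

noncomputable section
namespace CF55

theorem stmtSVD : G_SVD := by
  intro g hg
  have hgu : IsUnit g := (Matrix.isUnit_iff_isUnit_det g).mpr (isUnit_iff_ne_zero.mpr hg)
  have hpd : (gᴴ * g).PosDef :=
    Matrix.PosDef.conjTranspose_mul_self g (Matrix.mulVec_injective_of_isUnit hgu)
  set H := gᴴ * g with hH
  set U : Matrix (Fin 6) (Fin 6) ℂ := (hpd.1.eigenvectorUnitary : Matrix (Fin 6) (Fin 6) ℂ) with hU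
  have hUm : U ∈ Matrix.unitaryGroup (Fin 6) ℂ := hpd.1.eigenvectorUnitary.2
  have hU1 : star U * U = 1 := Matrix.mem_unitaryGroup_iff'.mp hUm
  have hU2 : U * star U = 1 := Matrix.mem_unitaryGroup_iff.mp hUm
  set μ := hpd.1.eigenvalues with hμ
  have hμp : ∀ i, 0 < μ i := fun i => hpd.eigenvalues_pos i
  have hspec : H = U * Matrix.diagonal (fun i => (μ i : ℂ)) * star U := by
    have h := hpd.1.spectral_theorem
    rw [Unitary.conjStarAlgAut_apply] at h
    exact h
  let a : Fin 6 → ℝ := fun i => Real.sqrt (μ i)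
  have ha : ∀ i, 0 < a i := fun i => Real.sqrt_pos.mpr (hμp i)
  have hac : ∀ i, (a i : ℂ) ≠ 0 := fun i => by exact_mod_cast (ha i).ne'
  have haa : ∀ i, (a i : ℂ) * (a i : ℂ) = (μ i : ℂ) := by
    intro i
    rw [← Complex.ofReal_mul]
    congr 1
    exact Real.mul_self_sqrt (hμp i).le
  let D : Matrix (Fin 6) (Fin 6) ℂ := Matrix.diagonal (fun i => (a i : ℂ))
  let Di : Matrix (Fin 6) (Fin 6) ℂ := Matrix.diagonal (fun i => (a i : ℂ)⁻¹)
  have hDiD : Di * D = 1 := by
    rw [Matrix.diagonal_mul_diagonal, ← Matrix.diagonal_one]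
    congr 1; funext i
    exact inv_mul_cancel₀ (hac i)
  have hDis : star Di = Di := by
    rw [Matrix.star_eq_conjTranspose, Matrix.diagonal_conjTranspose]
    congr 1; funext i
    simp
  let k := g * U * Di
  have hk : k ∈ Matrix.unitaryGroup (Fin 6) ℂ := by
    rw [Matrix.mem_unitaryGroup_iff']
    have h1 : star k * k = Di * (star U * H * U) * Di := by
      simp only [k, star_mul, hDis, hH, Matrix.star_eq_conjTranspose, Matrix.mul_assoc]
    rw [h1, hspec]
    have h2 : star U * (U * Matrix.diagonal (fun i => (μ i : ℂ)) * star U) * U =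
        (star U * U) * Matrix.diagonal (fun i => (μ i : ℂ)) * (star U * U) := by
      simp only [Matrix.mul_assoc]
    rw [h2, hU1, Matrix.one_mul, Matrix.mul_one, Matrix.diagonal_mul_diagonal,
      Matrix.diagonal_mul_diagonal, ← Matrix.diagonal_one]
    congr 1; funext i
    rw [← haa]
    field_simp [hac i]
  refine ⟨k, hk, star U, ?_, a, ha, ?_, ?_⟩
  · exact Unitary.star_mem hUm
  · show g = g * U * Di * D * star U
    rw [Matrix.mul_assoc (g * U) Di D, hDiD, Matrix.mul_one, Matrix.mul_assoc, hU2, Matrix.mul_one]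
  · have hgk : g = k * D * star U := by
      show g = g * U * Di * D * star U
      rw [Matrix.mul_assoc (g * U) Di D, hDiD, Matrix.mul_one, Matrix.mul_assoc, hU2,
        Matrix.mul_one]
    have hn : ∀ W ∈ Matrix.unitaryGroup (Fin 6) ℂ, ‖W.det‖ = 1 := fun W hW =>
      CStarRing.norm_of_mem_unitary (Matrix.det_of_mem_unitary hW)
    rw [hgk, Matrix.det_mul, Matrix.det_mul, norm_mul, norm_mul, hn k hk, hn _ (Unitary.star_mem hUm),
      one_mul, mul_one, Matrix.det_diagonal, norm_prod]
    refine Finset.prod_congr rfl fun i _ => ?_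
    rw [Complex.norm_real, Real.norm_of_nonneg (ha i).le]

/-- expansion of a trilinear form -/
theorem tri_sum (T : Tri) (v : Fin 6 → V) (x y z : V) :
    T (∑ i, x i • v i) (∑ j, y j • v j) (∑ l, z l • v l) =
      ∑ i, ∑ j, ∑ l, x i * y j * z l * T (v i) (v j) (v l) := by
  have e1 : T (∑ i, x i • v i) = ∑ i, x i • T (v i) := by simp [map_sum]
  rw [e1, LinearMap.sum_apply, LinearMap.sum_apply]
  refine Finset.sum_congr rfl fun i _ => ?_
  have e2 : T (v i) (∑ j, y j • v j) = ∑ j, y j • T (v i) (v j) := by simp [map_sum]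
  rw [LinearMap.smul_apply, LinearMap.smul_apply, e2, LinearMap.sum_apply, Finset.smul_sum]
  refine Finset.sum_congr rfl fun j _ => ?_
  have e3 : T (v i) (v j) (∑ l, z l • v l) = ∑ l, z l • T (v i) (v j) (v l) := by simp [map_sum]
  rw [LinearMap.smul_apply, e3, Finset.smul_sum, Finset.smul_sum]
  refine Finset.sum_congr rfl fun l _ => ?_
  simp only [smul_eq_mul]
  ring

theorem tri_expand (T : Tri) (x y z : V) :
    T x y z = ∑ i, ∑ j, ∑ l, x i * y j * z l *
      T (Pi.single i 1) (Pi.single j 1) (Pi.single l 1) := by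
  have hx : ∀ x : V, x = ∑ i, x i • (Pi.single i 1 : V) := fun x => by
    ext j
    simp [Finset.sum_apply, Pi.single_apply]
  conv_lhs => rw [hx x, hx y, hx z]
  exact tri_sum T _ x y z

theorem mulVec_sum (g : Matrix (Fin 6) (Fin 6) ℂ) (x : V) :
    g.mulVec x = ∑ i, x i • g.mulVec (Pi.single i 1) := by
  ext j
  simp [Matrix.mulVec, dotProduct, Finset.sum_apply, mul_comm]

/-- expansion of the values of `T` on the images of vectors -/
theorem tri_expand_g (T : Tri) (g : Matrix (Fin 6) (Fin 6) ℂ) (x y z : V) :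
    T (g.mulVec x) (g.mulVec y) (g.mulVec z) = ∑ i, ∑ j, ∑ l, x i * y j * z l *
      T (g.mulVec (Pi.single i 1)) (g.mulVec (Pi.single j 1)) (g.mulVec (Pi.single l 1)) := by
  rw [mulVec_sum g x, mulVec_sum g y, mulVec_sum g z]
  exact tri_sum T _ x y z

/-- the unitary group is compact -/
theorem unitary_compact :
    IsCompact {k : Matrix (Fin 6) (Fin 6) ℂ | k ∈ Matrix.unitaryGroup (Fin 6) ℂ} := by
  have hK : IsCompact (Set.pi Set.univ fun _ : Fin 6 => Set.pi Set.univ fun _ : Fin 6 =>
      Metric.closedBall (0 : ℂ) 1) :=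
    isCompact_univ_pi fun _ => isCompact_univ_pi fun _ => isCompact_closedBall 0 1
  refine IsCompact.of_isClosed_subset hK ?_ ?_
  · have h1 : {k : Matrix (Fin 6) (Fin 6) ℂ | k ∈ Matrix.unitaryGroup (Fin 6) ℂ} =
        {k | star k * k = 1} := by
      ext k
      exact Matrix.mem_unitaryGroup_iff'
    rw [h1]
    exact isClosed_eq (continuous_star.mul continuous_id) continuous_const
  · intro k hk i _ j _
    rw [mem_closedBall_zero_iff]
    exact entry_norm_bound_of_unitary hk i j

theorem stmtHM (hS : G_SVD) : G_HM := by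
  intro T g hT
  have hdet : ∀ n, (g n).1.det = 1 := fun n => (g n).2
  have hS' : ∀ n, ∃ k ∈ Matrix.unitaryGroup (Fin 6) ℂ, ∃ k' ∈ Matrix.unitaryGroup (Fin 6) ℂ,
      ∃ a : Fin 6 → ℝ, (∀ i, 0 < a i) ∧
        (g n).1 = k * Matrix.diagonal (fun i => (a i : ℂ)) * k' ∧ ∏ i, a i = ‖(g n).1.det‖ :=
    fun n => hS (g n).1 (by rw [hdet]; exact one_ne_zero)
  choose k hk k' hk' a ha hg hprod using hS'
  have : FirstCountableTopology (Matrix (Fin 6) (Fin 6) ℂ) :=
    inferInstanceAs (FirstCountableTopology (Fin 6 → Fin 6 → ℂ))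
  obtain ⟨k0, hk0, φ, hφ, hlim⟩ := unitary_compact.tendsto_subseq hk
  -- the products tend to zero
  have hprodlim : ∀ u v w : Fin 6, Tendsto (fun n => ((a n u : ℂ) * a n v * a n w) *
      T ((k n).mulVec (Pi.single u 1)) ((k n).mulVec (Pi.single v 1))
        ((k n).mulVec (Pi.single w 1))) atTop (𝓝 0) := by
    intro u v w
    have h1 : ∀ n, ((a n u : ℂ) * a n v * a n w) *
        T ((k n).mulVec (Pi.single u 1)) ((k n).mulVec (Pi.single v 1))
          ((k n).mulVec (Pi.single w 1)) =
        ∑ i, ∑ j, ∑ l, (star (k' n)) i u * (star (k' n)) j v * (star (k' n)) l w *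
          T ((g n).1.mulVec (Pi.single i 1)) ((g n).1.mulVec (Pi.single j 1))
            ((g n).1.mulVec (Pi.single l 1)) := by
      intro n
      have h2 : ∀ u, (g n).1.mulVec ((star (k' n)).mulVec (Pi.single u 1)) =
          (a n u : ℂ) • (k n).mulVec (Pi.single u 1) := by
        intro u
        rw [Matrix.mulVec_mulVec, hg n, Matrix.mul_assoc _ (k' n),
          Matrix.mem_unitaryGroup_iff.mp (hk' n), Matrix.mul_one, ← Matrix.mulVec_mulVec,
          Matrix.diagonal_mulVec_single, mul_one]
        have : (Pi.single u (a n u : ℂ) : V) = (a n u : ℂ) • Pi.single u 1 := by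
          rw [← Pi.single_smul]; simp
        rw [this, Matrix.mulVec_smul]
      have h3 := tri_expand_g T (g n).1 ((star (k' n)).mulVec (Pi.single u 1))
        ((star (k' n)).mulVec (Pi.single v 1)) ((star (k' n)).mulVec (Pi.single w 1))
      rw [h2, h2, h2] at h3
      simp only [map_smul, LinearMap.smul_apply, smul_eq_mul, Matrix.mulVec_single_one,
        Matrix.col_apply] at h3
      simp only [Matrix.mulVec_single_one]
      rw [← h3]
      ring
    rw [tendsto_zero_iff_norm_tendsto_zero]
    have h4 : Tendsto (fun n => ∑ i, ∑ j, ∑ l, ‖T ((g n).1.mulVec (Pi.single i 1))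
        ((g n).1.mulVec (Pi.single j 1)) ((g n).1.mulVec (Pi.single l 1))‖) atTop (𝓝 0) := by
      have : (0 : ℝ) = ∑ _i : Fin 6, ∑ _j : Fin 6, ∑ _l : Fin 6, (0 : ℝ) := by simp
      rw [this]
      refine tendsto_finsetSum _ fun i _ => tendsto_finsetSum _ fun j _ =>
        tendsto_finsetSum _ fun l _ => ?_
      exact tendsto_zero_iff_norm_tendsto_zero.mp (hT i j l)
    refine squeeze_zero (fun n => norm_nonneg _) (fun n => ?_) h4
    rw [h1]
    have hb : ∀ i u, ‖(star (k' n)) i u‖ ≤ 1 := fun i u =>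
      entry_norm_bound_of_unitary (Unitary.star_mem (hk' n)) i u
    refine (norm_sum_le _ _).trans (Finset.sum_le_sum fun i _ => ?_)
    refine (norm_sum_le _ _).trans (Finset.sum_le_sum fun j _ => ?_)
    refine (norm_sum_le _ _).trans (Finset.sum_le_sum fun l _ => ?_)
    rw [norm_mul, norm_mul, norm_mul]
    refine mul_le_of_le_one_left (norm_nonneg _) ?_
    calc ‖(star (k' n)) i u‖ * ‖(star (k' n)) j v‖ * ‖(star (k' n)) l w‖ ≤ 1 * 1 * 1 := by
          gcongr
          · exact hb i u
          · exact hb j v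
          · exact hb l w
      _ = 1 := by norm_num
  -- continuity of `T`
  have hTc : ∀ u v w : Fin 6, Tendsto (fun n => T ((k (φ n)).mulVec (Pi.single u 1))
      ((k (φ n)).mulVec (Pi.single v 1)) ((k (φ n)).mulVec (Pi.single w 1))) atTop
      (𝓝 (T (k0.mulVec (Pi.single u 1)) (k0.mulVec (Pi.single v 1))
        (k0.mulVec (Pi.single w 1)))) := by
    intro u v w
    have hcont : Continuous (fun κ : Matrix (Fin 6) (Fin 6) ℂ => T (κ.mulVec (Pi.single u 1))
      (κ.mulVec (Pi.single v 1)) (κ.mulVec (Pi.single w 1))) := by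
      have h5 : (fun κ : Matrix (Fin 6) (Fin 6) ℂ => T (κ.mulVec (Pi.single u 1))
          (κ.mulVec (Pi.single v 1)) (κ.mulVec (Pi.single w 1))) =
          fun κ => ∑ i, ∑ j, ∑ l, κ i u * κ j v * κ l w *
            T (Pi.single i 1) (Pi.single j 1) (Pi.single l 1) := by
        funext κ
        rw [tri_expand]
        simp only [Matrix.mulVec_single_one, Matrix.col_apply]
      rw [h5]
      refine continuous_finsetSum _ fun i _ => continuous_finsetSum _ fun j _ =>
        continuous_finsetSum _ fun l _ => ?_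
      fun_prop
    exact (hcont.tendsto k0).comp hlim
  -- eventually the products are less than one
  have hev : ∀ᶠ n in atTop, ∀ u v w : Fin 6, T (k0.mulVec (Pi.single u 1))
      (k0.mulVec (Pi.single v 1)) (k0.mulVec (Pi.single w 1)) ≠ 0 →
        a (φ n) u * a (φ n) v * a (φ n) w < 1 := by
    rw [Filter.eventually_all]; intro u
    rw [Filter.eventually_all]; intro v
    rw [Filter.eventually_all]; intro w
    by_cases hne : T (k0.mulVec (Pi.single u 1)) (k0.mulVec (Pi.single v 1))
      (k0.mulVec (Pi.single w 1)) = 0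
    · exact Eventually.of_forall fun n h => absurd hne h
    · have h6 := ((hprodlim u v w).comp hφ.tendsto_atTop).div (hTc u v w) hne
      rw [zero_div] at h6
      have h7 := (tendsto_zero_iff_norm_tendsto_zero.mp h6).eventually (gt_mem_nhds one_pos)
      filter_upwards [h7, (hTc u v w).eventually_ne hne] with n h8 h9 _
      simp only [Function.comp_apply, Pi.div_apply] at h8
      rw [mul_div_cancel_right₀ _ h9, ← Complex.ofReal_mul, ← Complex.ofReal_mul,
        Complex.norm_real, Real.norm_of_nonneg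
          (mul_nonneg (mul_nonneg (ha _ _).le (ha _ _).le) (ha _ _).le)] at h8
      exact h8
  obtain ⟨n, hn⟩ := hev.exists
  refine ⟨fun u => k0.mulVec (Pi.single u 1), ?_, fun i => Real.log (a (φ n) i), ?_, ?_⟩
  · have hku : IsUnit k0 := by
      have := Matrix.mem_unitaryGroup_iff.mp hk0
      exact IsUnit.of_mul_eq_one _ this
    have h8 := Matrix.linearIndependent_cols_of_isUnit hku
    have h9 : (fun u => k0.mulVec (Pi.single u 1)) = k0.col := by
      funext u
      exact Matrix.mulVec_single_one _ _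
    rw [h9]
    exact h8
  · rw [← Real.log_prod (fun i _ => (ha (φ n) i).ne'), hprod, hdet, norm_one, Real.log_one]
  · intro u v w huvw
    have h8 := hn u v w huvw
    have h9 : Real.log (a (φ n) u) + Real.log (a (φ n) v) + Real.log (a (φ n) w) =
        Real.log (a (φ n) u * a (φ n) v * a (φ n) w) := by
      rw [Real.log_mul (mul_ne_zero (ha _ _).ne' (ha _ _).ne') (ha _ _).ne',
        Real.log_mul (ha _ _).ne' (ha _ _).ne']
    show Real.log (a (φ n) u) + Real.log (a (φ n) v) + Real.log (a (φ n) w) < 0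
    rw [h9]
    exact Real.log_neg (mul_pos (mul_pos (ha _ _) (ha _ _)) (ha _ _)) h8

theorem stmtSORT : G_SORT := by
  intro T e he l hl hneg
  let σ := Tuple.sort (fun i => - l i)
  have hσ : Monotone ((fun i => - l i) ∘ σ) := Tuple.monotone_sort _
  refine ⟨e ∘ σ, he.comp _ σ.injective, fun i => l (σ 0) - l (σ i), ?_, by simp, ?_⟩
  · intro i j hij
    have := hσ hij
    simp only [Function.comp] at this
    linarith
  · intro a b c habc
    have h1 := hneg _ _ _ habc
    have h2 : ∑ i, (l (σ 0) - l (σ i)) = 6 * l (σ 0) := by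
      rw [Finset.sum_sub_distrib, Equiv.sum_comp σ l, hl]
      simp
    rw [h2]
    linarith

end CF55
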